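import Pool.Agent.Helper93.HZ.Spec3

/-!
# HZ: LEG, legs and centers of a triangle
-/

set_option autoImplicit false

open MulAction Pointwise

namespace Pool.Agent.Helper93.HZ

open Ctx

theorem leg_flip {G : Type} [Group G] {D : Setup G} {K : Cx G} (P : Pts D K) (z : K.V) {u w : D.U}
    (h : D.T.Adj u w) : (P.N z u = w ∧ P.N z w ≠ u) ∨ (P.N z w = u ∧ P.N z u ≠ w) := by
  have h1 := (P.fN z).2 u w h
  by_cases h2 : P.N z u = w
  · exact Or.inl ⟨h2, h1.1 h2⟩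
  · refine Or.inr ⟨?_, h2⟩
    by_contra h3
    exact h2 (h1.2 h3)

/-- LEG: legs and centers of a triangle. -/
theorem st_LEG (hTFB : ST_TFB) : ST_LEG := by
  intro G _ X x y z htri
  have hxy : X.K.adj x y := X.K.tri_adj _ _ _ htri
  have hyz : X.K.adj y z := X.K.tri_adj _ _ _ (X.K.tri_rot _ _ _ htri)
  have hzx : X.K.adj z x := X.K.tri_adj _ _ _ (X.K.tri_rot _ _ _ (X.K.tri_rot _ _ _ htri))
  have hxz : X.K.adj x z := X.K.symm _ _ hzx
  refine ⟨?_, ?_, ?_, ?_, ?_⟩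
  · exact hTFB X.D.U X.D.T X.D.tree _ _ _ (X.P.fN x) (X.P.fN y) (X.P.fN z)
      (X.nd x y hxy) (X.nd y z hyz) (X.nd x z hxz)
  · intro u hu hc
    by_cases h1 : X.P.N y u = X.P.N z u → X.P.N y u = u
    · by_cases h2 : X.P.N x u = X.P.N z u → X.P.N x u = u
      · exact absurd ⟨hu, h1, h2⟩ hc
      · right
        push Not at h2
        refine ⟨h2.1, h2.2, fun h3 => h2.2 (hu h3.symm)⟩
    · left
      push Not at h1
      refine ⟨h1.1, h1.2, fun h3 => ?_⟩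
      have h4 := hu h3
      exact h1.2 (h3 ▸ h4)
  · rintro u ⟨h1, h2, h3⟩
    exact ⟨fun h => absurd h h3, fun h => h2 (h.2.1 h1)⟩
  · rintro u w ⟨hadj, h1, h2⟩
    rcases leg_flip X.P z hadj with ⟨h3, h4⟩ | ⟨h3, h4⟩
    · exact Or.inl ⟨hadj, h1, h3⟩
    · exact Or.inr ⟨hadj, h3, h2⟩
  · rintro u w ⟨hadj, h1, h2⟩ ⟨_, _, h3⟩
    have hz := (X.P.fN z).2 u w hadj
    have hx := (X.P.fN x).2 u w hadj
    refine ⟨fun h => hz.1 h3 h.2.1, h2.trans h3.symm, ?_, ?_⟩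
    · rw [h2]
      exact hadj.ne'
    · rw [h2]
      intro h4
      exact hx.1 h4 h1

end Pool.Agent.Helper93.HZ
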